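import Pool.Agent.ZTO.Stmts

/-!
# ZTO, row OMG (helper49): the first nonzero level
-/

set_option autoImplicit false

open scoped BigOperators

namespace Pool.Agent.ZTO.H49

/-- homomorphisms from a finitely generated group to a finite group -/
theorem finite_hom (Γ N : Type) [Group Γ] [Group.FG Γ] [Group N] [Finite N] :
    Finite (Γ →* N) := by
  obtain ⟨S, hS, hf⟩ := Group.fg_iff.1 (inferInstance : Group.FG Γ)
  have : Finite S := hf
  refine Finite.of_injective (fun (f : Γ →* N) (s : S) => f s) ?_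
  intro f g h
  refine MonoidHom.eq_of_eqOn_dense hS ?_
  intro s hs
  exact congrFun h ⟨s, hs⟩

/-- iterates of a self map of a finite set -/
theorem iter_eq {X : Type} [Finite X] (T : X → X) : ∃ a e : ℕ, 1 ≤ e ∧
    ∀ y, T^[a + e] y = T^[a] y := by
  obtain ⟨a, b, hab, h⟩ := Finite.exists_ne_map_eq_of_infinite (fun n : ℕ => T^[n])
  rcases lt_or_gt_of_ne hab with h1 | h1
  · refine ⟨a, b - a, by omega, fun y => ?_⟩
    rw [Nat.add_sub_cancel' h1.le]
    exact (congrFun h y).symm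
  · refine ⟨b, a - b, by omega, fun y => ?_⟩
    rw [Nat.add_sub_cancel' (le_of_lt h1)]
    exact congrFun h y

/-- backward orbits in a finite set are periodic -/
theorem periodic {X : Type} [Finite X] (T : X → X) (om : ℕ → X) (h : ∀ j, T (om (j + 1)) = om j) :
    ∃ e : ℕ, 1 ≤ e ∧ ∀ j, om (j + e) = om j := by
  obtain ⟨a, e, he, hT⟩ := iter_eq T
  have h1 : ∀ i j, T^[i] (om (j + i)) = om j := by
    intro i
    induction i with
    | zero =>
      intro j
      rfl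
    | succ i ih =>
      intro j
      rw [Function.iterate_succ_apply, ← Nat.add_assoc, h, ih]
  have h2 : ∀ j, T^[e] (om j) = om j := by
    intro j
    have h3 := hT (om (j + a))
    rw [Nat.add_comm a e, Function.iterate_add_apply, h1] at h3
    exact h3
  exact ⟨e, he, fun j => (h2 (j + e)).symm.trans (h1 e j)⟩

section cof

variable {G : Type} [Group G] {p : ℕ} {ψ : G →* G} {V : Type} [AddCommGroup V]
  {F : ℕ → AddSubgroup V} {t : V →+ V} {ρ : G →* AddMonoid.End V} {x : V} {c : ℕ → V → ZMod p}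

theorem anti_add (hF : Fil p ψ F t ρ x) (j k : ℕ) : F (j + k) ≤ F j := by
  induction k with
  | zero => exact le_rfl
  | succ k ih => exact (hF.anti (j + k)).trans ih

theorem iter_mem (hF : Fil p ψ F t ρ x) (j : ℕ) : (⇑t)^[j] x ∈ F j := by
  induction j with
  | zero =>
    rw [hF.top]
    exact AddSubgroup.mem_top _
  | succ j ih =>
    rw [Function.iterate_succ_apply']
    exact (hF.tf j _).2 ih

theorem c_zero (hC : Cof p F t x c) (j : ℕ) : c j 0 = 0 :=
  (hC.ker j 0 (F j).zero_mem).2 (F (j + 1)).zero_mem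

theorem c_nsmul (hC : Cof p F t x c) (j : ℕ) {v : V} (hv : v ∈ F j) (r : ℕ) :
    c j (r • v) = r * c j v := by
  induction r with
  | zero => rw [zero_smul, c_zero hC, Nat.cast_zero, zero_mul]
  | succ r ih =>
    rw [succ_nsmul, hC.add j _ ((F j).nsmul_mem hv r) _ hv, ih, Nat.cast_succ, add_mul, one_mul]

/-- the leading coefficient of `ρ g - 1` at `t^j x` -/
def om (_F : ℕ → AddSubgroup V) (t : V →+ V) (ρ : G →* AddMonoid.End V) (x : V)
    (c : ℕ → V → ZMod p) (s j : ℕ) (g : G) : ZMod p :=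
  c (j + s) (ρ g ((⇑t)^[j] x) - (⇑t)^[j] x)

theorem om_lead (hF : Fil p ψ F t ρ x) (hC : Cof p F t x c) {s : ℕ} {g : G}
    (hg : ∀ j, ∀ v ∈ F j, ρ g v - v ∈ F (j + s)) :
    Lead F ρ c g s (fun j => om F t ρ x c s j g) := by
  intro j v hv
  refine ⟨hg j v hv, ?_⟩
  obtain ⟨r, hr⟩ := hF.gen j v hv
  obtain ⟨y, hy⟩ : ∃ y, y = (⇑t)^[j] x := ⟨_, rfl⟩
  rw [← hy] at hr
  have hyF : y ∈ F j := by
    rw [hy]
    exact iter_mem hF j
  obtain ⟨w, hw⟩ : ∃ w, w = v - r • y := ⟨_, rfl⟩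
  rw [← hw] at hr
  have hv2 : v = r • y + w := by
    rw [hw]
    abel
  have hwF : w ∈ F j := hF.anti j hr
  have h1 : c j v = r := by
    rw [hv2, hC.add j _ ((F j).nsmul_mem hyF r) _ hwF, c_nsmul hC j hyF,
      (hC.ker j w hwF).2 hr, hy, hC.one]
    ring
  have h2 : ρ g v - v = r • (ρ g y - y) + (ρ g w - w) := by
    rw [hv2, map_add, map_nsmul, nsmul_sub]
    abel
  have h3 : ρ g w - w ∈ F (j + s + 1) := by
    have := hg (j + 1) w hr
    rwa [Nat.add_right_comm] at this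
  have h4 : ρ g y - y ∈ F (j + s) := hg j y hyF
  rw [h2, hC.add (j + s) _ ((F (j + s)).nsmul_mem h4 r) _ (hF.anti _ h3), c_nsmul hC (j + s) h4,
    (hC.ker (j + s) _ (hF.anti _ h3)).2 h3, add_zero, h1, mul_comm]
  show c (j + s) (ρ g y - y) * (r : ZMod p) = c (j + s) (ρ g ((⇑t)^[j] x) - (⇑t)^[j] x) * r
  rw [← hy]

theorem om_mul (hF : Fil p ψ F t ρ x) (hC : Cof p F t x c) {s : ℕ} (hs : 1 ≤ s) {g g' : G}
    (hg : ∀ j, ∀ v ∈ F j, ρ g v - v ∈ F (j + s)) (hg' : ∀ j, ∀ v ∈ F j, ρ g' v - v ∈ F (j + s))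
    (j : ℕ) : om F t ρ x c s j (g * g') = om F t ρ x c s j g + om F t ρ x c s j g' := by
  unfold om
  obtain ⟨y, hy⟩ : ∃ y, y = (⇑t)^[j] x := ⟨_, rfl⟩
  rw [← hy]
  have hyF : y ∈ F j := by
    rw [hy]
    exact iter_mem hF j
  have h1 : ρ (g * g') y - y = (ρ g y - y) + (ρ g' y - y) +
      (ρ g (ρ g' y - y) - (ρ g' y - y)) := by
    rw [map_mul, map_sub]
    show ρ g (ρ g' y) - y = _
    abel
  have h2 := hg j y hyF
  have h3 := hg' j y hyF
  have h4 := hg (j + s) _ h3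
  have h5 : ρ g (ρ g' y - y) - (ρ g' y - y) ∈ F (j + s + 1) := by
    obtain ⟨r, rfl⟩ := Nat.exists_eq_add_of_le hs
    have h6 := anti_add hF (j + (1 + r) + 1) r
    have h7 : j + (1 + r) + (1 + r) = j + (1 + r) + 1 + r := by omega
    rw [h7] at h4
    exact h6 h4
  rw [h1, hC.add (j + s) _ ((F (j + s)).add_mem h2 h3) _ (hF.anti _ h5),
    hC.add (j + s) _ h2 _ h3, (hC.ker (j + s) _ (hF.anti _ h5)).2 h5, add_zero]

theorem om_shift (hF : Fil p ψ F t ρ x) (hC : Cof p F t x c) {s : ℕ} {g : G}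
    (hg : ∀ j, ∀ v ∈ F j, ρ g v - v ∈ F (j + s)) (j : ℕ) :
    om F t ρ x c s (j + 1) (ψ g) = om F t ρ x c s j g := by
  unfold om
  rw [Function.iterate_succ_apply', hF.eqv, ← map_sub, Nat.add_right_comm,
    hC.sft _ _ (hg j _ (iter_mem hF j))]

end cof

theorem omg (hKAC : KacStmt) (hKER : KerStmt) : OmgStmt := by
  classical
  intro G _ _ p ψ V _ F t ρ x c hp hF hC hne
  have : Fact p.Prime := ⟨hp⟩
  obtain ⟨hnorm, hfi, hψ, -⟩ := hKER G p
  -- the level
  obtain ⟨S, hS⟩ : ∃ S : ℕ → Prop, S = fun s => ∀ g ∈ Ker G p, ∀ j, ∀ v ∈ F j,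
      ρ g v - v ∈ F (j + s) := ⟨_, rfl⟩
  have hS1 : S 1 := by
    rw [hS]
    intro g hg
    exact hKAC G p ψ V F t ρ x hp hF 1 g (by rw [pow_one]; exact hg)
  have hSd : ∀ s, S (s + 1) → S s := by
    intro s h
    rw [hS] at h ⊢
    intro g hg j v hv
    exact hF.anti (j + s) (h g hg j v hv)
  have hSn : ∃ s, ¬ S s := by
    by_contra hc
    push Not at hc
    obtain ⟨g, hg, v, hv⟩ := hne
    apply hv
    rw [← sub_eq_zero]
    apply hF.sep
    intro j
    have h1 := hc j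
    rw [hS] at h1
    have h2 := h1 g hg 0 v (by rw [hF.top]; exact AddSubgroup.mem_top _)
    rwa [Nat.zero_add] at h2
  obtain ⟨s, hs1, hsS, hsn⟩ : ∃ s, 1 ≤ s ∧ S s ∧ ¬ S (s + 1) := by
    have h1 := Nat.find_spec hSn
    obtain ⟨m, hm⟩ : ∃ m, m = Nat.find hSn := ⟨_, rfl⟩
    rw [← hm] at h1
    have hmin : ∀ k, k < m → S k := by
      intro k hk
      rw [hm] at hk
      have := Nat.find_min hSn hk
      exact not_not.1 this
    have h0 : S 0 := hSd 0 hS1
    rcases m with _ | _ | m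
    · exact absurd h0 h1
    · exact absurd hS1 h1
    · exact ⟨m + 1, by omega, hmin (m + 1) (by omega), h1⟩
  rw [hS] at hsS hsn
  -- the homomorphisms
  have hfg : Group.FG (Ker G p) := inferInstance
  have hfin : Finite (Ker G p →* Multiplicative (ZMod p)) := finite_hom _ _
  obtain ⟨ψΓ, hψΓ⟩ : ∃ ψΓ : Ker G p →* Ker G p, ∀ g, (ψΓ g : G) = ψ g :=
    ⟨(ψ.comp (Ker G p).subtype).codRestrict (Ker G p) (fun g => hψ ψ g g.2), fun _ => rfl⟩
  obtain ⟨O, hO⟩ : ∃ O : ℕ → (Ker G p →* Multiplicative (ZMod p)), ∀ j g,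
      O j g = Multiplicative.ofAdd (om F t ρ x c s j (g : G)) := by
    refine ⟨fun j => MonoidHom.mk' (fun g => Multiplicative.ofAdd (om F t ρ x c s j (g : G))) ?_,
      fun _ _ => rfl⟩
    intro g g'
    rw [← ofAdd_add]
    congr 1
    exact om_mul hF hC hs1 (hsS g g.2) (hsS g' g'.2) j
  obtain ⟨e, he, hper⟩ := periodic (fun f : Ker G p →* Multiplicative (ZMod p) => f.comp ψΓ) O (by
    intro j
    ext g
    show O (j + 1) (ψΓ g) = O j g
    rw [hO, hO, hψΓ, om_shift hF hC (hsS g g.2)])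
  have hper2 : ∀ j, ∀ g ∈ Ker G p, om F t ρ x c s (j + e) g = om F t ρ x c s j g := by
    intro j g hg
    have h1 := congrArg (fun f : Ker G p →* Multiplicative (ZMod p) => f ⟨g, hg⟩) (hper j)
    simp only [hO] at h1
    exact Multiplicative.ofAdd.injective h1
  -- some level is nonzero
  obtain ⟨j0, g0, hg0, h0⟩ : ∃ j0, ∃ g0 ∈ Ker G p, om F t ρ x c s j0 g0 ≠ 0 := by
    push Not at hsn
    obtain ⟨g, hg, j, v, hv, hn⟩ := hsn
    refine ⟨j, g, hg, fun h1 => hn ?_⟩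
    obtain ⟨h2, h3⟩ := om_lead hF hC (hsS g hg) j v hv
    have h4 : c (j + s) (ρ g v - v) = om F t ρ x c s j g * c j v := h3
    rw [h1, zero_mul] at h4
    exact (hC.ker (j + s) _ h2).1 h4
  have hup : ∀ i, ∃ g ∈ Ker G p, om F t ρ x c s (j0 + i) g ≠ 0 := by
    intro i
    induction i with
    | zero => exact ⟨g0, hg0, h0⟩
    | succ i ih =>
      obtain ⟨g, hg, h1⟩ := ih
      refine ⟨ψ g, hψ ψ g hg, ?_⟩
      rw [← Nat.add_assoc, om_shift hF hC (hsS g hg)]
      exact h1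
  have hmul : ∀ m j, ∀ g ∈ Ker G p, om F t ρ x c s (j + m * e) g = om F t ρ x c s j g := by
    intro m
    induction m with
    | zero =>
      intro j g _
      rw [Nat.zero_mul, Nat.add_zero]
    | succ m ih =>
      intro j g hg
      rw [Nat.succ_mul, ← Nat.add_assoc, hper2 _ g hg, ih j g hg]
  refine ⟨s, e, om F t ρ x c s, hs1, he, fun g hg => om_lead hF hC (hsS g hg), ?_, hper2⟩
  intro j
  obtain ⟨g, hg, h1⟩ := hup (j + j0 * e - j0)
  refine ⟨g, hg, ?_⟩
  have h2 : j0 ≤ j + j0 * e := by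
    have := Nat.le_mul_of_pos_right j0 he
    omega
  rw [Nat.add_sub_cancel' h2, hmul j0 j g hg] at h1
  exact h1

end Pool.Agent.ZTO.H49
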